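import Pool.Agent.H.MP_808d7a_gt.C

set_option autoImplicit false

namespace Pool.Agent.Results.MP_808d7a_gt.Asymp

open Pool.Agent.H.MP_808d7a_gt

theorem result :
    (∀ n : ℕ, 0 < n → (1 / √n) ^ n ≤ g n ∧
      g n ≤ MeasureTheory.volume.real (Metric.ball (0 : EuclideanSpace ℝ (Fin n)) 1) / 2 ^ n ∧
      g n ≤ (√(Real.pi * Real.exp 1 / 2) / √n) ^ n) ∧
    ∀ c : ℝ, 0 < c → ∃ n : ℕ, g n < c ^ n :=
  ⟨fun n hn => ⟨lower hn, upper n, upper' hn⟩, fun _ hc => no_c hc⟩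

end Pool.Agent.Results.MP_808d7a_gt.Asymp
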